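import Pool.Agent.MP_4d8271_ag.Final

namespace Pool.Agent.Results.MP_4d8271_ag.Unbounded

open Pool.Agent.MP_4d8271_ag

/-- For every rational `0 < ε < 1` the class of `ε`-klt del Pezzo surfaces is not bounded, even
over finitely generated fields and even if one allows arbitrary morphisms of finite type. -/
theorem result : ∀ ε : ℚ, 0 < ε → ε < 1 → ¬ IsWeaklyBounded (epsKltFano 2 ε) :=
  fun ε _ hε => not_isWeaklyBounded ε hε

end Pool.Agent.Results.MP_4d8271_ag.Unbounded
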